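import Pool.Agent.Helper76.CY.Lin

/-!
# CY-5b: the orbit of a vector under an operator with irreducible polynomial
-/

namespace Pool.Agent.Helper52.CY

theorem linIndep_orbit {K V : Type*} [Field K] [AddCommGroup V] [Module K V]
    (χ : Polynomial K) (hχ : Irreducible χ) (hdeg : χ.natDegree = 11) (B : V →ₗ[K] V) (τ : V)
    (hτ : τ ≠ 0) (h : Polynomial.aeval B χ τ = 0) :
    LinearIndependent K (fun i : Fin 11 => (B ^ (i : ℕ)) τ) := by
  rw [Fintype.linearIndependent_iff]
  intro g hg
  set q : Polynomial K := ∑ i : Fin 11, Polynomial.C (g i) * Polynomial.X ^ (i : ℕ) with hq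
  have hqB : Polynomial.aeval B q τ = 0 := by
    rw [hq, map_sum, LinearMap.sum_apply, ← hg]
    refine Finset.sum_congr rfl fun i _ => ?_
    rw [map_mul, Polynomial.aeval_C, map_pow, Polynomial.aeval_X, Algebra.algebraMap_eq_smul_one,
      smul_mul_assoc, one_mul, LinearMap.smul_apply]
  have hcoeff : ∀ i : Fin 11, q.coeff i = g i := by
    intro i
    rw [hq, Polynomial.finsetSum_coeff, Finset.sum_eq_single i]
    · rw [Polynomial.coeff_C_mul, Polynomial.coeff_X_pow, if_pos rfl, mul_one]
    · intro j _ hj
      rw [Polynomial.coeff_C_mul, Polynomial.coeff_X_pow, if_neg, mul_zero]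
      intro h1
      exact hj (Fin.ext h1.symm)
    · intro hi
      exact absurd (Finset.mem_univ i) hi
  have hq0 : q = 0 := by
    by_contra hne
    have hdq : q.natDegree < χ.natDegree := by
      rw [hdeg]
      refine lt_of_le_of_lt (Polynomial.natDegree_sum_le_of_forall_le (n := 10) _ _ ?_)
        (by norm_num)
      intro i _
      refine (Polynomial.natDegree_C_mul_X_pow_le _ _).trans ?_
      have := i.isLt
      omega
    have hnd : ¬ χ ∣ q := fun hd => by
      have := Polynomial.natDegree_le_of_dvd hd hne
      omega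
    obtain ⟨u, v, huv⟩ := (hχ.coprime_iff_not_dvd).2 hnd
    apply hτ
    have h1 : Polynomial.aeval B (u * χ + v * q) τ = τ := by
      rw [huv, map_one]
      rfl
    rw [map_add, map_mul, map_mul, LinearMap.add_apply, Module.End.mul_apply,
      Module.End.mul_apply, h, hqB, map_zero, map_zero, add_zero] at h1
    exact h1.symm
  intro i
  rw [← hcoeff i, hq0, Polynomial.coeff_zero]

end Pool.Agent.Helper52.CY
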