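import Pool.Agent.Helper76.CY.Ex

/-!
# Project CY, piece E2: the window conditions of the explicit tensor
-/

set_option autoImplicit false

namespace Pool.Agent.Helper52.CY

open Pool.Agent.Helper76.CY

theorem sym3_swap12 (p q r i j k : Fin 10) : sym3 p q r i j k = sym3 p q r j i k := by
  have h : ∀ a b c : Fin 10, (i = a ∧ j = b ∧ k = c) ↔ (j = b ∧ i = a ∧ k = c) :=
    fun a b c => and_left_comm
  simp only [sym3, h]
  ring

theorem sym3_swap23 (p q r i j k : Fin 10) : sym3 p q r i j k = sym3 p q r i k j := by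
  have h : ∀ a b c : Fin 10, (i = a ∧ j = b ∧ k = c) ↔ (i = a ∧ k = c ∧ j = b) :=
    fun a b c => and_congr_right fun _ => and_comm
  simp only [sym3, h]
  ring

theorem orb_swap12 (a b i j k : Fin 10) : orb a b i j k = orb a b j i k :=
  Finset.sum_congr rfl fun l _ => sym3_swap12 l (l + a) (l + b) i j k

theorem orb_swap23 (a b i j k : Fin 10) : orb a b i j k = orb a b i k j :=
  Finset.sum_congr rfl fun l _ => sym3_swap23 l (l + a) (l + b) i j k

theorem Dex_zero_of (u v : ℤ) {i j k : Fin 10}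
    (h : orb 3 3 i j k - orb 1 4 i j k + orb 2 6 i j k = 0 ∧ orb 2 7 i j k = 0 ∧
      orb 3 6 i j k = 0) : Dex u v i j k = 0 := by
  obtain ⟨h1, h2, h3⟩ := h
  simp only [Dex]
  rw [h1, h2, h3]
  simp

theorem Dex_of (u v : ℤ) {i j k : Fin 10} {A : ℤ}
    (h : orb 3 3 i j k - orb 1 4 i j k + orb 2 6 i j k = A ∧ orb 2 7 i j k = 0 ∧
      orb 3 6 i j k = 0) : Dex u v i j k = A := by
  obtain ⟨h1, h2, h3⟩ := h
  simp only [Dex]
  rw [h1, h2, h3]
  simp

set_option maxRecDepth 100000 in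
theorem orb_zero : ∀ i j k : Fin 10, i ≤ j → j ≤ k → k ≤ 3 → ¬ (i = 0 ∧ j = 3 ∧ k = 3) →
    (orb 3 3 i j k - orb 1 4 i j k + orb 2 6 i j k = 0 ∧ orb 2 7 i j k = 0 ∧
      orb 3 6 i j k = 0) := by
  decide

set_option maxRecDepth 100000 in
theorem orb_00 : ∀ l : Fin 10, 4 ≤ l → l ≠ 7 →
    (orb 3 3 l 0 0 - orb 1 4 l 0 0 + orb 2 6 l 0 0 = 0 ∧ orb 2 7 l 0 0 = 0 ∧
      orb 3 6 l 0 0 = 0) := by
  decide

set_option maxRecDepth 100000 in
theorem orb_01 : ∀ l : Fin 10, 4 ≤ l → l ≠ 4 →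
    (orb 3 3 l 0 1 - orb 1 4 l 0 1 + orb 2 6 l 0 1 = 0 ∧ orb 2 7 l 0 1 = 0 ∧
      orb 3 6 l 0 1 = 0) := by
  decide

set_option maxRecDepth 100000 in
theorem orb_02 : ∀ l : Fin 10, 4 ≤ l → l ≠ 6 → l ≠ 7 →
    (orb 3 3 l 0 2 - orb 1 4 l 0 2 + orb 2 6 l 0 2 = 0 ∧ orb 2 7 l 0 2 = 0 ∧
      orb 3 6 l 0 2 = 0) := by
  decide

set_option maxRecDepth 100000 in
theorem orb_11 : ∀ l : Fin 10, 4 ≤ l → l ≠ 8 →
    (orb 3 3 l 1 1 - orb 1 4 l 1 1 + orb 2 6 l 1 1 = 0 ∧ orb 2 7 l 1 1 = 0 ∧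
      orb 3 6 l 1 1 = 0) := by
  decide

set_option maxRecDepth 100000 in
theorem orb_12 : ∀ l : Fin 10, 4 ≤ l → l ≠ 5 →
    (orb 3 3 l 1 2 - orb 1 4 l 1 2 + orb 2 6 l 1 2 = 0 ∧ orb 2 7 l 1 2 = 0 ∧
      orb 3 6 l 1 2 = 0) := by
  decide

set_option maxRecDepth 100000 in
theorem orb_22 : ∀ l : Fin 10, 4 ≤ l → l ≠ 9 →
    (orb 3 3 l 2 2 - orb 1 4 l 2 2 + orb 2 6 l 2 2 = 0 ∧ orb 2 7 l 2 2 = 0 ∧
      orb 3 6 l 2 2 = 0) := by
  decide

theorem tri_left (D : Ten ℚ) (m : Fin 10 → ℚ) (a b : Fin 10) :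
    tri D m (bv ℚ a) (bv ℚ b) = ∑ l, D l a b * m l := by
  simp only [tri, bv, Pi.single_apply]
  refine Finset.sum_congr rfl fun l _ => ?_
  rw [Finset.sum_eq_single a (fun c _ hc => by simp [hc]) (by simp)]
  rw [Finset.sum_eq_single b (fun c _ hc => by simp [hc]) (by simp)]
  simp

theorem step (D : Ten ℚ) (m : Fin 10 → ℚ) (a b l₀ : Fin 10)
    (h0 : ∀ l, l ≠ l₀ → m l = 0 ∨ D l a b = 0) (h1 : D l₀ a b ≠ 0)
    (h2 : tri D m (bv ℚ a) (bv ℚ b) = 0) : m l₀ = 0 := by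
  rw [tri_left, Finset.sum_eq_single l₀ (fun c _ hc => by
    rcases h0 c hc with h | h <;> simp [h]) (by simp)] at h2
  exact (mul_eq_zero.1 h2).resolve_left h1

/-- CY-E2. -/
theorem window_Dex (u v : ℤ) : Window (Dex u v) where
  swap12 i j k := by
    simp only [Dex]
    rw [orb_swap12 3 3, orb_swap12 1 4, orb_swap12 2 6, orb_swap12 2 7, orb_swap12 3 6]
  swap23 i j k := by
    simp only [Dex]
    rw [orb_swap23 3 3, orb_swap23 1 4, orb_swap23 2 6, orb_swap23 2 7, orb_swap23 3 6]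
  zero i j k h1 h2 h3 h4 := Dex_zero_of u v (orb_zero i j k h1 h2 h3 h4)
  alpha := by
    rw [Dex_of u v (A := 2) (by decide)]
    norm_num
  nondeg m m0 m1 m2 m3 h := by
    have hlow : ∀ l : Fin 10, ¬ (4 ≤ l) → m l = 0 := by
      intro l hl
      have : l = 0 ∨ l = 1 ∨ l = 2 ∨ l = 3 := by
        revert hl; revert l; decide
      rcases this with rfl | rfl | rfl | rfl <;> assumption
    have c0 : c3 0 = 0 := rfl
    have c1 : c3 1 = 1 := rfl
    have c2 : c3 2 = 2 := rfl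
    have h7 : m 7 = 0 := by
      refine step (Dex u v) m 0 0 7 (fun l hl => ?_) ?_ (h 0 0)
      · by_cases h4 : 4 ≤ l
        · exact Or.inr (Dex_zero_of u v (orb_00 l h4 hl))
        · exact Or.inl (hlow l h4)
      · rw [Dex_of u v (A := 2) (by decide)]; norm_num
    have h4 : m 4 = 0 := by
      refine step (Dex u v) m 0 1 4 (fun l hl => ?_) ?_ (h 0 1)
      · by_cases h4 : 4 ≤ l
        · exact Or.inr (Dex_zero_of u v (orb_01 l h4 hl))
        · exact Or.inl (hlow l h4)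
      · rw [Dex_of u v (A := -1) (by decide)]; norm_num
    have h6 : m 6 = 0 := by
      refine step (Dex u v) m 0 2 6 (fun l hl => ?_) ?_ (h 0 2)
      · by_cases h4 : 4 ≤ l
        · by_cases h7' : l = 7
          · subst h7'; exact Or.inl h7
          · exact Or.inr (Dex_zero_of u v (orb_02 l h4 hl h7'))
        · exact Or.inl (hlow l h4)
      · rw [Dex_of u v (A := 1) (by decide)]; norm_num
    have h8 : m 8 = 0 := by
      refine step (Dex u v) m 1 1 8 (fun l hl => ?_) ?_ (h 1 1)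
      · by_cases h4 : 4 ≤ l
        · exact Or.inr (Dex_zero_of u v (orb_11 l h4 hl))
        · exact Or.inl (hlow l h4)
      · rw [Dex_of u v (A := 2) (by decide)]; norm_num
    have h5 : m 5 = 0 := by
      refine step (Dex u v) m 1 2 5 (fun l hl => ?_) ?_ (h 1 2)
      · by_cases h4 : 4 ≤ l
        · exact Or.inr (Dex_zero_of u v (orb_12 l h4 hl))
        · exact Or.inl (hlow l h4)
      · rw [Dex_of u v (A := -1) (by decide)]; norm_num
    have h9 : m 9 = 0 := by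
      refine step (Dex u v) m 2 2 9 (fun l hl => ?_) ?_ (h 2 2)
      · by_cases h4 : 4 ≤ l
        · exact Or.inr (Dex_zero_of u v (orb_22 l h4 hl))
        · exact Or.inl (hlow l h4)
      · rw [Dex_of u v (A := 2) (by decide)]; norm_num
    funext l
    by_cases h4' : 4 ≤ l
    · have : l = 4 ∨ l = 5 ∨ l = 6 ∨ l = 7 ∨ l = 8 ∨ l = 9 := by
        revert h4'; revert l; decide
      rcases this with rfl | rfl | rfl | rfl | rfl | rfl <;> assumption
    · exact hlow l h4'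

end Pool.Agent.Helper52.CY
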